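import Pool.Agent.Helper81.SB.Basic

/-!
# Project SB (MP_340b06_lc), packet DAG
-/

set_option autoImplicit false

namespace Pool.Agent.Helper73.SB

open Set Cardinal Filter
open Pool.Agent.Helper81.SB

/-- `h♯` -/
def hs (h : ℕ → ℕ) (m : ℕ) : ℕ := m + 1 + ∑ i ∈ Finset.range (m + 1), h i

theorem hs_mono (h : ℕ → ℕ) : Monotone (hs h) := by
  intro m m' hm
  unfold hs
  have h1 : ∑ i ∈ Finset.range (m + 1), h i ≤ ∑ i ∈ Finset.range (m' + 1), h i :=
    Finset.sum_le_sum_of_subset (Finset.range_mono (by omega))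
  omega

theorem le_hs (h : ℕ → ℕ) (m : ℕ) : h m ≤ hs h m := by
  unfold hs
  have h1 : h m ≤ ∑ i ∈ Finset.range (m + 1), h i :=
    Finset.single_le_sum (f := h) (fun i _ => Nat.zero_le _) (Finset.mem_range.2 (by omega))
  omega

theorem lt_hs (h : ℕ → ℕ) (m : ℕ) : m < hs h m := by
  unfold hs
  omega

/-- the block ends -/
def aa (h : ℕ → ℕ) : ℕ → ℕ
  | 0 => 0
  | l + 1 => hs h (aa h l)

theorem aa_strictMono (h : ℕ → ℕ) : StrictMono (aa h) :=
  strictMono_nat_of_lt_succ fun l => lt_hs h (aa h l)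

theorem exists_block (h : ℕ → ℕ) (m : ℕ) : ∃ l, aa h l ≤ m ∧ m < aa h (l + 1) := by
  classical
  have hex : ∃ l, m < aa h (l + 1) := ⟨m, lt_of_lt_of_le (Nat.lt_succ_self m) ((aa_strictMono h).id_le _)⟩
  refine ⟨Nat.find hex, ?_, Nat.find_spec hex⟩
  rcases Nat.eq_zero_or_pos (Nat.find hex) with h0 | h0
  · rw [h0]
    exact Nat.zero_le _
  · obtain ⟨k, hk⟩ : ∃ k, Nat.find hex = k + 1 := ⟨Nat.find hex - 1, by omega⟩
    rw [hk]
    exact not_lt.1 (Nat.find_min hex (m := k) (by omega))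

/-- the set `C` -/
def CC (en : W → ℕ → W) (h : ℕ → ℕ) (γ : W) : Set W :=
  {ξ | ∃ l j, aa h l ≤ j ∧ j < aa h (l + 1) ∧ en γ j = ξ ∧ ∀ i < aa h l, en γ i < ξ}

theorem CC_fin (en : W → ℕ → W) (h : ℕ → ℕ) (γ : W) (ξ : W) (hξ : ξ ∈ CC en h γ) :
    {η | η ∈ CC en h γ ∧ η < ξ}.Finite := by
  obtain ⟨l, j, h1, h2, h3, h4⟩ := hξ
  apply ((Finset.range (aa h (l + 1))).finite_toSet.image (en γ)).subset
  rintro η ⟨⟨l', j', k1, k2, k3, k4⟩, hlt⟩
  have hl : l' ≤ l := by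
    by_contra hcon
    have h5 : aa h (l + 1) ≤ aa h l' := (aa_strictMono h).monotone (by omega)
    have h6 := k4 j (lt_of_lt_of_le h2 h5)
    rw [h3] at h6
    exact absurd (h6.trans hlt) (lt_irrefl _)
  refine ⟨j', ?_, k3⟩
  have h5 : aa h (l' + 1) ≤ aa h (l + 1) := (aa_strictMono h).monotone (by omega)
  simp only [Finset.coe_range, mem_Iio]
  omega

theorem exists_enum : ∃ en : W → ℕ → W, ∀ γ : W, (Iio γ).Nonempty → range (en γ) = Iio γ := by
  have h : ∀ γ : W, ∃ e : ℕ → W, (Iio γ).Nonempty → range e = Iio γ := by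
    intro γ
    by_cases hne : (Iio γ).Nonempty
    · obtain ⟨e, he⟩ := (W_Iio γ).exists_eq_range hne
      exact ⟨e, fun _ => he.symm⟩
    · exact ⟨fun _ => γ, fun h => absurd h hne⟩
  choose en hen using h
  exact ⟨en, hen⟩

theorem goal_DAG : Goal_DAG := by
  classical
  intro c hc D hD hub
  obtain ⟨en, hen⟩ := exists_enum
  refine ⟨range (fun p : W × (W × D) => ((CC en p.2.2.1 p.1, fun ξ => c ξ p.2.1) : Set W × (W → ℕ))),
    ?_, ?_, ?_⟩
  · refine mk_range_le.trans ?_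
    rw [mk_prod, mk_prod, W_card]
    simp only [lift_id]
    have h1 : ℵ₁ * #D ≤ ℵ₁ * ℵ₁ := mul_le_mul_right hD _
    have h2 : (ℵ₁ : Cardinal.{0}) * ℵ₁ = ℵ₁ := mul_eq_self aleph0_lt_aleph_one.le
    calc ℵ₁ * (ℵ₁ * #D) ≤ ℵ₁ * (ℵ₁ * ℵ₁) := mul_le_mul_right h1 _
      _ = ℵ₁ := by rw [h2, h2]
  · rintro p ⟨q, rfl⟩ ξ hξ
    exact CC_fin en q.2.2.1 q.1 ξ hξ
  intro E hE
  -- the function `u`
  have hcount : ∀ ε : W, ∀ n : ℕ,
      {β | β ∈ E ∧ ε < β ∧ ∀ α ∈ E, ε < α → α < β → c α β ≠ n}.Countable := by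
    intro ε n
    by_contra hcon
    obtain ⟨α, hα, β, hβ, hlt, he⟩ := hc _ hcon n
    exact hβ.2.2 α hα.1 hα.2.1 hlt he
  have hu : ∀ ε : W, ∃ u : W, ∀ β ∈ E, u ≤ β → ∀ n, ∃ α ∈ E, ε < α ∧ α < β ∧ c α β = n := by
    intro ε
    obtain ⟨u, hu⟩ := W_bdd (insert ε (⋃ n, {β | β ∈ E ∧ ε < β ∧ ∀ α ∈ E, ε < α → α < β → c α β ≠ n}))
      ((countable_iUnion fun n => hcount ε n).insert ε)
    refine ⟨u, fun β hβ hle n => ?_⟩
    by_contra hcon
    push Not at hcon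
    have h1 : ε < β := lt_of_lt_of_le (hu ε (mem_insert _ _)) hle
    have h2 : β < u := hu β (mem_insert_of_mem _ (mem_iUnion.2 ⟨n, hβ, h1, fun α hα h3 h4 =>
      hcon α hα h3 h4⟩))
    exact absurd (lt_of_lt_of_le h2 hle) (lt_irrefl _)
  choose u hu using hu
  obtain ⟨γ, hγ0, hγ⟩ := exists_closed u (Classical.arbitrary W)
  have hne : (Iio γ).Nonempty := ⟨_, hγ0⟩
  have hran := hen γ hne
  -- the least element of `E` above `γ`
  obtain ⟨β₀, hβ₀, hβ₀'⟩ := exists_gt_of_not_countable hE γ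
  obtain ⟨β, ⟨hβE, hγβ⟩, hmin⟩ := WellFounded.has_min (wellFounded_lt (α := W))
    {β | β ∈ E ∧ γ ≤ β} ⟨β₀, hβ₀, hβ₀'.le⟩
  have hstar : ∀ ε < γ, ∀ n, ∃ α ∈ E, ε < α ∧ α < γ ∧ c α β = n := by
    intro ε hε n
    obtain ⟨α, hα, h1, h2, h3⟩ := hu ε β hβE ((hγ ε hε).le.trans hγβ) n
    refine ⟨α, hα, h1, ?_, h3⟩
    by_contra hcon
    exact hmin α ⟨hα, not_lt.1 hcon⟩ h2
  -- the indices
  have hJ : ∀ m n : ℕ, ∃ j, m ≤ j ∧ en γ j ∈ E ∧ c (en γ j) β = n ∧ ∀ i < m, en γ i < en γ j := by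
    intro m n
    obtain ⟨i₀, _, hi₀⟩ := (Finset.range (m + 1)).exists_max_image (fun i => en γ i)
      ⟨0, Finset.mem_range.2 (by omega)⟩
    have hi : en γ i₀ < γ := by
      have : en γ i₀ ∈ range (en γ) := ⟨i₀, rfl⟩
      rw [hran] at this
      exact this
    obtain ⟨α, hα, h1, h2, h3⟩ := hstar _ hi n
    have h4 : α ∈ range (en γ) := by rw [hran]; exact h2
    obtain ⟨j, rfl⟩ := h4
    have h5 : ∀ i < m, en γ i < en γ j := fun i hi' =>
      lt_of_le_of_lt (hi₀ i (Finset.mem_range.2 (by omega))) h1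
    refine ⟨j, ?_, hα, h3, h5⟩
    by_contra hcon
    exact lt_irrefl _ (h5 j (not_le.1 hcon))
  choose J hJ1 hJ2 hJ3 hJ4 using hJ
  let F : ℕ → ℕ := fun m => 1 + ∑ m' ∈ Finset.range (m + 1), ∑ n ∈ Finset.range (m' + 1), J m' n
  have hFmono : Monotone F := by
    intro m m' hm
    have h1 : ∑ x ∈ Finset.range (m + 1), ∑ n ∈ Finset.range (x + 1), J x n ≤
        ∑ x ∈ Finset.range (m' + 1), ∑ n ∈ Finset.range (x + 1), J x n :=
      Finset.sum_le_sum_of_subset (Finset.range_mono (by omega))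
    show 1 + _ ≤ 1 + _
    omega
  have hJF : ∀ m n, n ≤ m → J m n < F m := by
    intro m n hnm
    have h1 : J m n ≤ ∑ n ∈ Finset.range (m + 1), J m n :=
      Finset.single_le_sum (f := fun n => J m n) (fun i _ => Nat.zero_le _)
        (Finset.mem_range.2 (by omega))
    have h2 : ∑ n ∈ Finset.range (m + 1), J m n ≤
        ∑ m' ∈ Finset.range (m + 1), ∑ n ∈ Finset.range (m' + 1), J m' n :=
      Finset.single_le_sum (f := fun m' => ∑ n ∈ Finset.range (m' + 1), J m' n)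
        (fun i _ => Nat.zero_le _) (Finset.mem_range.2 (by omega))
    show _ < 1 + _
    omega
  obtain ⟨h, hhD, hh⟩ := hub (fun n => F (F n))
  -- infinitely many good blocks
  have hgood : ∀ l₀, ∃ l, l₀ ≤ l ∧ F (aa h l) ≤ aa h (l + 1) := by
    intro l₀
    by_contra hcon
    push Not at hcon
    obtain ⟨m, hm, hm'⟩ := (frequently_atTop.1 hh) (aa h l₀)
    obtain ⟨l, hl, hl'⟩ := exists_block h m
    have hll : l₀ ≤ l := by
      by_contra hcon'
      have : aa h (l + 1) ≤ aa h l₀ := (aa_strictMono h).monotone (by omega)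
      omega
    have e1 : h m ≤ aa h (l + 2) := (le_hs h m).trans (hs_mono h hl'.le)
    have e2 : aa h (l + 2) < F (aa h (l + 1)) := hcon (l + 1) (by omega)
    have e3 : F (aa h (l + 1)) ≤ F (F (aa h l)) := hFmono (hcon l hll).le
    have e4 : F (F (aa h l)) ≤ F (F m) := hFmono (hFmono hl)
    have : F (F m) < h m := hm'
    omega
  refine ⟨_, ⟨(γ, (β, ⟨h, hhD⟩)), rfl⟩, fun n => ?_⟩
  intro hfin
  have hidx : ∀ ξ : W, ∃ i : ℕ, ξ ∈ CC en h γ → en γ i = ξ := by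
    intro ξ
    by_cases hξ : ξ ∈ CC en h γ
    · obtain ⟨l, j, _, _, h3, _⟩ := hξ
      exact ⟨j, fun _ => h3⟩
    · exact ⟨0, fun h => absurd h hξ⟩
  choose idx hidx using hidx
  obtain ⟨M, hM⟩ := (hfin.image idx).bddAbove
  obtain ⟨l, hl, hl'⟩ := hgood (max (M + 1) n)
  have hal : max (M + 1) n ≤ aa h l := hl.trans ((aa_strictMono h).id_le l)
  have h1 := hJ1 (aa h l) n
  have h2 := hJ2 (aa h l) n
  have h3 := hJ3 (aa h l) n
  have h4 := hJ4 (aa h l) n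
  have h5 := hJF (aa h l) n (le_trans (le_max_right _ _) hal)
  set j := J (aa h l) n with hj
  have hmem : en γ j ∈ CC en h γ := ⟨l, j, h1, lt_of_lt_of_le h5 hl', rfl, h4⟩
  have h6 : idx (en γ j) ≤ M := hM ⟨en γ j, ⟨hmem, h2, h3⟩, rfl⟩
  have h7 : idx (en γ j) < aa h l := by
    have := le_trans (le_max_left _ _) hal
    omega
  have h8 := h4 _ h7
  rw [hidx _ hmem] at h8
  exact lt_irrefl _ h8

end Pool.Agent.Helper73.SB
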